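import Pool.Agent.H242.GX.Stm5

/-! # GX5-LIM2 of project GX (helper242): logarithmic growth against boundedness -/

set_option autoImplicit false

open Set Filter Topology Pool.Agent.H242.GX

namespace Pool.Agent.H178.GX.LIM2

theorem gx_LIM2 : S_LIM2 := by
  intro y y₁ κ κ₁ δ M t₁ B κ₀ hY ht₁ ht₁δ hB hb
  by_contra hκ
  have hκ' : κ₀ < 0 := not_le.mp hκ
  have hc : 0 < -κ₀ / (4 * B) := div_pos (by linarith) (by linarith)
  set c : ℝ := -κ₀ / (4 * B) with hcdef
  set t₂ : ℝ := min t₁ (-κ₀ / (2 * B)) with ht₂def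
  have ht₂ : 0 < t₂ := lt_min ht₁ (div_pos (by linarith) (by linarith))
  have ht₂1 : t₂ ≤ t₁ := min_le_left _ _
  have ht₂2 : B * t₂ ≤ -κ₀ / 2 := by
    have h1 : t₂ ≤ -κ₀ / (2 * B) := min_le_right _ _
    have h2 : B * t₂ ≤ B * (-κ₀ / (2 * B)) := mul_le_mul_of_nonneg_left h1 hB.le
    have h3 : B * (-κ₀ / (2 * B)) = -κ₀ / 2 := by
      field_simp
    rw [h3] at h2
    exact h2
  -- the derivative
  have hder : ∀ t : ℝ, 0 < t → t ≤ t₂ → c / t ≤ (6 * y₁ t ^ 2 - κ t) / (2 * y t) := by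
    intro t ht htt
    obtain ⟨-, h2, h3⟩ := hb t ht (htt.trans ht₂1)
    have hyp := hY.ypos t ht (lt_of_le_of_lt (htt.trans ht₂1) ht₁δ)
    have h4 : κ t ≤ κ₀ / 2 := by
      have h5 := (abs_le.mp h3).2
      have h6 : B * t ≤ B * t₂ := mul_le_mul_of_nonneg_left htt hB.le
      linarith
    rw [div_le_div_iff₀ ht (by linarith)]
    have h7 : c * (2 * y t) ≤ c * (2 * (B * t)) :=
      mul_le_mul_of_nonneg_left (by linarith) hc.le
    have h8 : c * (2 * (B * t)) = -κ₀ / 2 * t := by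
      rw [hcdef]
      field_simp
      ring
    have h9 : -κ₀ / 2 * t ≤ (6 * y₁ t ^ 2 - κ t) * t := by
      refine mul_le_mul_of_nonneg_right ?_ ht.le
      have := sq_nonneg (y₁ t)
      linarith
    linarith
  have hmon : ∀ s : ℝ, 0 < s → s ≤ t₂ → y₁ s - c * Real.log s ≤ y₁ t₂ - c * Real.log t₂ := by
    intro s hs hst
    have hd : ∀ t ∈ Icc s t₂, HasDerivAt (fun t => y₁ t - c * Real.log t)
        ((6 * y₁ t ^ 2 - κ t) / (2 * y t) - c * t⁻¹) t := by
      intro t ht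
      have ht0 : 0 < t := lt_of_lt_of_le hs ht.1
      exact (hY.dy1 t ht0 (lt_of_le_of_lt (ht.2.trans ht₂1) ht₁δ)).sub
        ((Real.hasDerivAt_log ht0.ne').const_mul c)
    have hm : MonotoneOn (fun t => y₁ t - c * Real.log t) (Icc s t₂) := by
      refine monotoneOn_of_deriv_nonneg (convex_Icc s t₂)
        (fun t ht => (hd t ht).continuousAt.continuousWithinAt) ?_ ?_
      · intro t ht
        exact (hd t (interior_subset ht)).differentiableAt.differentiableWithinAt
      · intro t ht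
        have ht' := interior_subset ht
        have ht0 : 0 < t := lt_of_lt_of_le hs ht'.1
        rw [(hd t ht').deriv, ← div_eq_mul_inv]
        have := hder t ht0 ht'.2
        linarith
    exact hm (left_mem_Icc.mpr hst) (right_mem_Icc.mpr hst) hst
  have hE : 0 < Real.exp (-((2 * B + 1) / c)) := Real.exp_pos _
  have hE1 : Real.exp (-((2 * B + 1) / c)) ≤ 1 := by
    rw [Real.exp_le_one_iff]
    have : 0 ≤ (2 * B + 1) / c := div_nonneg (by linarith) hc.le
    linarith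
  have hs0 : 0 < t₂ * Real.exp (-((2 * B + 1) / c)) := mul_pos ht₂ hE
  have hs1 : t₂ * Real.exp (-((2 * B + 1) / c)) ≤ t₂ := mul_le_of_le_one_right ht₂.le hE1
  have h1 := hmon _ hs0 hs1
  rw [Real.log_mul ht₂.ne' hE.ne', Real.log_exp] at h1
  have h2 := (abs_le.mp (hb _ hs0 (hs1.trans ht₂1)).1).1
  have h3 := (abs_le.mp (hb t₂ ht₂ ht₂1).1).2
  have h4 : c * ((2 * B + 1) / c) = 2 * B + 1 := by
    field_simp
  nlinarith

end Pool.Agent.H178.GX.LIM2
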